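import Mathlib

/-!
A shift-invariant finitely dependent process on `ℤ^d`, `d ≥ 2`, with values in a finite set,
whose support contains no periodic point.

Construction: put independent uniform elements `s v` of the circle `ℝ/ℤ` at the sites of the
lattice, fix `a` irrational and let
`h v = s (v + e₁) - s v`, `w v = a * v₁ + s (v + e₂) - s v`.
This is a gauge field with flux `a` through every unit face; it is shift-invariant and
finitely dependent.  The process records in which quarter of the circle `h v` and `w v` lie.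
-/

open MeasureTheory ProbabilityTheory

namespace Pool.Agent.Results.MP_5c5aaa_pr.NoPeriodicPoint

/-- The sites. -/
abbrev Site (d : ℕ) := Fin d → ℤ

/-- Representative in `[0,1)`. -/
noncomputable def rep (t : UnitAddCircle) : ℝ := (AddCircle.equivIco 1 0 t : ℝ)

theorem rep_nonneg (t : UnitAddCircle) : 0 ≤ rep t := (AddCircle.equivIco 1 0 t).2.1

theorem rep_lt_one (t : UnitAddCircle) : rep t < 1 := by
  calc rep t < 0 + 1 := (AddCircle.equivIco 1 0 t).2.2
    _ = 1 := zero_add 1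

theorem coe_rep (t : UnitAddCircle) : ((rep t : ℝ) : UnitAddCircle) = t :=
  AddCircle.coe_equivIco

theorem measurable_rep : Measurable rep :=
  measurable_subtype_coe.comp (AddCircle.measurableEquivIco 1 0).measurable

/-- The quarter of the circle in which `t` lies. -/
noncomputable def qu (t : UnitAddCircle) : ℕ := ⌊4 * rep t⌋₊

theorem qu_lt (t : UnitAddCircle) : qu t < 4 := by
  rw [qu, Nat.floor_lt (by have := rep_nonneg t; positivity)]
  have := rep_lt_one t
  push_cast
  linarith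

theorem measurable_qu : Measurable qu :=
  Nat.measurable_floor.comp (measurable_rep.const_mul 4)

theorem abs_rep_sub_lt {t t' : UnitAddCircle} (h : qu t = qu t') : |rep t - rep t'| < 1 / 4 := by
  have h1 := Nat.floor_le (show (0 : ℝ) ≤ 4 * rep t by have := rep_nonneg t; positivity)
  have h2 := Nat.lt_floor_add_one (4 * rep t)
  have h3 := Nat.floor_le (show (0 : ℝ) ≤ 4 * rep t' by have := rep_nonneg t'; positivity)
  have h4 := Nat.lt_floor_add_one (4 * rep t')
  rw [qu, qu] at h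
  rw [h] at h1 h2
  rw [abs_lt]
  constructor <;> linarith

/-- Code of a pair of points of the circle. -/
noncomputable def code (t t' : UnitAddCircle) : Fin 16 :=
  ⟨4 * qu t + qu t', by have := qu_lt t; have := qu_lt t'; omega⟩

theorem code_inj {t t' u u' : UnitAddCircle} (h : code t t' = code u u') :
    qu t = qu u ∧ qu t' = qu u' := by
  have h' : 4 * qu t + qu t' = 4 * qu u + qu u' := congrArg Fin.val h
  have := qu_lt t'
  have := qu_lt u'
  omega

theorem measurable_code : Measurable (fun p : UnitAddCircle × UnitAddCircle => code p.1 p.2) := by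
  have h : Measurable (fun p : UnitAddCircle × UnitAddCircle => 4 * qu p.1 + qu p.2) :=
    ((measurable_qu.comp measurable_fst).const_mul 4).add (measurable_qu.comp measurable_snd)
  refine measurable_to_countable' fun i => ?_
  have : (fun p : UnitAddCircle × UnitAddCircle => code p.1 p.2) ⁻¹' {i} =
      (fun p : UnitAddCircle × UnitAddCircle => 4 * qu p.1 + qu p.2) ⁻¹' {(i : ℕ)} := by
    ext p
    simp [code, Fin.ext_iff]
  rw [this]
  exact h (measurableSet_singleton _)

section field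

variable {d : ℕ} (i₁ i₂ : Fin d) (a : ℝ)

/-- first component of the gauge field -/
def hor (ω : Site d → UnitAddCircle) (v : Site d) : UnitAddCircle :=
  ω (v + Pi.single i₁ 1) - ω v

/-- second component of the gauge field -/
def ver (ω : Site d → UnitAddCircle) (v : Site d) : UnitAddCircle :=
  v i₁ • (a : UnitAddCircle) + (ω (v + Pi.single i₂ 1) - ω v)

theorem flux (ω : Site d → UnitAddCircle) (v : Site d) :
    hor i₁ ω v + ver i₁ i₂ a ω (v + Pi.single i₁ 1) - hor i₁ ω (v + Pi.single i₂ 1) -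
      ver i₁ i₂ a ω v = (a : UnitAddCircle) := by
  have e : v + Pi.single i₂ 1 + Pi.single i₁ 1 = v + Pi.single i₁ 1 + Pi.single i₂ 1 := by abel
  simp only [hor, ver, Pi.add_apply, Pi.single_eq_same, e, add_smul, one_smul]
  abel

/-- The finite valued process. -/
noncomputable def fld (ω : Site d → UnitAddCircle) (v : Site d) : Fin 16 :=
  code (hor i₁ ω v) (ver i₁ i₂ a ω v)

theorem measurable_diff (v w : Site d) :
    Measurable (fun ω : Site d → UnitAddCircle => ω v - ω w) :=
  Measurable.sub (measurable_pi_apply _) (measurable_pi_apply _)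

theorem measurable_hor (v : Site d) : Measurable (fun ω => hor i₁ ω v) :=
  measurable_diff (v + Pi.single i₁ 1) v

theorem measurable_ver (v : Site d) : Measurable (fun ω => ver i₁ i₂ a ω v) :=
  (measurable_diff (v + Pi.single i₂ 1) v).const_add (v i₁ • (a : UnitAddCircle))

theorem measurable_fld_apply (v : Site d) : Measurable (fun ω => fld i₁ i₂ a ω v) := by
  have h := (measurable_hor i₁ v).prodMk (measurable_ver i₁ i₂ a v)
  have e : (fun ω => fld i₁ i₂ a ω v) = (fun p : UnitAddCircle × UnitAddCircle => code p.1 p.2) ∘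
      (fun ω => (hor i₁ ω v, ver i₁ i₂ a ω v)) := by
    funext ω
    simp only [Function.comp_apply, fld]
  rw [e]
  exact measurable_code.comp h

theorem measurable_fld : Measurable (fld i₁ i₂ a) :=
  measurable_pi_lambda _ fun v => measurable_fld_apply i₁ i₂ a v

/-- the gauge change compensating the shift by `w` -/
theorem fld_shift (h12 : i₁ ≠ i₂) (w : Site d) (ω : Site d → UnitAddCircle) (u : Site d) :
    fld i₁ i₂ a ω (u + w) =
      fld i₁ i₂ a (fun x => ω (x + w) + (w i₁ * x i₂) • (a : UnitAddCircle)) u := by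
  have e1 : u + w + Pi.single i₁ 1 = u + Pi.single i₁ 1 + w := by abel
  have e2 : u + w + Pi.single i₂ 1 = u + Pi.single i₂ 1 + w := by abel
  have h1 : hor i₁ ω (u + w) =
      hor i₁ (fun x => ω (x + w) + (w i₁ * x i₂) • (a : UnitAddCircle)) u := by
    simp only [hor, e1, Pi.add_apply, Pi.single_eq_of_ne h12.symm, add_zero]
    abel
  have h2 : ver i₁ i₂ a ω (u + w) =
      ver i₁ i₂ a (fun x => ω (x + w) + (w i₁ * x i₂) • (a : UnitAddCircle)) u := by
    simp only [ver, e2, Pi.add_apply, Pi.single_eq_same, mul_add, mul_one, add_smul]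
    abel
  rw [fld, fld, h1, h2]

/-- the law of the independent uniform variables -/
noncomputable def base (d : ℕ) : Measure (Site d → UnitAddCircle) :=
  Measure.infinitePi fun _ => AddCircle.haarAddCircle

instance : IsProbabilityMeasure (base d) := by
  rw [base]; infer_instance

/-- invariance of the base law -/
theorem base_map (w : Site d) (g : Site d → UnitAddCircle) :
    (base d).map (fun ω x => ω (x + w) + g x) = base d := by
  have h1 : (base d).map (fun ω x => ω (x + w)) = base d :=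
    Measure.map_infinitePi_infinitePi_of_inj (Ω := fun _ : Site d => UnitAddCircle)
      (P := fun _ => AddCircle.haarAddCircle) (add_left_injective w)
  have h2 : (base d).map (fun ω x => ω x + g x) = base d := by
    have := Measure.infinitePi_map_pi (fun _ : Site d => (AddCircle.haarAddCircle : Measure UnitAddCircle))
      (f := fun x t => t + g x) (fun x => measurable_add_const (g x))
    rw [base, this]
    congr 1
    funext x
    exact map_add_right_eq_self _ _
  have h3 : (fun (ω : Site d → UnitAddCircle) x => ω (x + w) + g x) =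
      (fun ω x => ω x + g x) ∘ (fun ω x => ω (x + w)) := rfl
  rw [h3, ← Measure.map_map, h1, h2]
  · refine measurable_pi_lambda _ fun x => ?_
    have h4 : Measurable (fun ω : Site d → UnitAddCircle => ω x) := measurable_pi_apply x
    exact h4.add_const (g x)
  · exact measurable_pi_lambda _ fun x => measurable_pi_apply (x + w)

/-- the law of the process -/
noncomputable def law : Measure (Site d → Fin 16) := (base d).map (fld i₁ i₂ a)

theorem law_prob : IsProbabilityMeasure (law i₁ i₂ a) :=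
  Measure.isProbabilityMeasure_map (measurable_fld i₁ i₂ a).aemeasurable

theorem law_shift (h12 : i₁ ≠ i₂) (w : Site d) :
    (law i₁ i₂ a).map (fun x u => x (u + w)) = law i₁ i₂ a := by
  have hm : Measurable (fun (x : Site d → Fin 16) u => x (u + w)) :=
    measurable_pi_lambda _ fun u => measurable_pi_apply (u + w)
  rw [law, Measure.map_map hm (measurable_fld i₁ i₂ a)]
  have h : (fun (x : Site d → Fin 16) u => x (u + w)) ∘ fld i₁ i₂ a =
      fld i₁ i₂ a ∘ (fun ω x => ω (x + w) + (w i₁ * x i₂) • (a : UnitAddCircle)) := by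
    funext ω u
    exact fld_shift i₁ i₂ a h12 w ω u
  rw [h, ← Measure.map_map (measurable_fld i₁ i₂ a), base_map w (fun x => _)]
  exact measurable_pi_lambda _ fun x => (measurable_pi_apply (x + w)).add_const _

/-- the σ-algebra generated by the variables at the sites of `S` -/
abbrev sig (S : Set (Site d)) : MeasurableSpace (Site d → UnitAddCircle) :=
  ⨆ u ∈ S, MeasurableSpace.comap (fun ω : Site d → UnitAddCircle => ω u) inferInstance

theorem measurable_eval_sig {S : Set (Site d)} {u : Site d} (hu : u ∈ S) :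
    Measurable[sig S] (fun ω : Site d → UnitAddCircle => ω u) :=
  (comap_measurable (fun ω : Site d → UnitAddCircle => ω u)).mono
    (le_iSup₂ (f := fun u (_ : u ∈ S) =>
      MeasurableSpace.comap (fun ω : Site d → UnitAddCircle => ω u) inferInstance) u hu) le_rfl

theorem measurable_fld_sig {S : Set (Site d)} {v : Site d} (h0 : v ∈ S)
    (h1 : v + Pi.single i₁ 1 ∈ S) (h2 : v + Pi.single i₂ 1 ∈ S) :
    Measurable[sig S] (fun ω => fld i₁ i₂ a ω v) := by
  have e0 := measurable_eval_sig h0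
  have e1 := measurable_eval_sig h1
  have e2 := measurable_eval_sig h2
  have f1 : Measurable[sig S] (fun ω => hor i₁ ω v) := Measurable.sub e1 e0
  have f2 : Measurable[sig S] (fun ω => ver i₁ i₂ a ω v) :=
    Measurable.const_add (Measurable.sub e2 e0) _
  have e : (fun ω => fld i₁ i₂ a ω v) = (fun p : UnitAddCircle × UnitAddCircle => code p.1 p.2) ∘
      (fun ω => (hor i₁ ω v, ver i₁ i₂ a ω v)) := by
    funext ω
    simp only [Function.comp_apply, fld]
  rw [e]
  exact measurable_code.comp (Measurable.prodMk f1 f2)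

/-- the sites needed for the values of the process on `A` -/
def nb (A : Set (Site d)) : Set (Site d) :=
  {u | u ∈ A ∨ u - Pi.single i₁ 1 ∈ A ∨ u - Pi.single i₂ 1 ∈ A}

theorem base_indep {S T : Set (Site d)} (h : Disjoint S T) :
    Indep (sig S) (sig T) (base d) := by
  have h1 : iIndepFun (fun (v : Site d) (ω : Site d → UnitAddCircle) => ω v) (base d) :=
    iIndepFun_infinitePi (X := fun _ (x : UnitAddCircle) => x) (fun _ => measurable_id)
  exact indep_iSup_of_disjoint (fun v => (measurable_pi_apply v).comap_le) h1.iIndep h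

theorem nb_disjoint {A B : Set (Site d)}
    (hAB : ∀ x ∈ A, ∀ y ∈ B, ∃ i, 2 ≤ |x i - y i|) : Disjoint (nb i₁ i₂ A) (nb i₁ i₂ B) := by
  rw [Set.disjoint_left]
  intro u hu hu'
  have key : ∀ x ∈ A, ∀ y ∈ B, (∀ i, |u i - x i| ≤ 1 ∧ 0 ≤ u i - x i) →
      (∀ i, |u i - y i| ≤ 1 ∧ 0 ≤ u i - y i) → False := by
    intro x hx y hy h1 h2
    obtain ⟨i, hi⟩ := hAB x hx y hy
    have := h1 i
    have := h2 i
    rw [abs_le] at *
    rcases abs_cases (x i - y i) with h | h <;> omega
  have hs : ∀ (j : Fin d) (i : Fin d), |u i - (u - Pi.single j 1 : Site d) i| ≤ 1 ∧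
      0 ≤ u i - (u - Pi.single j 1 : Site d) i := by
    intro j i
    rw [Pi.sub_apply, sub_sub_cancel]
    by_cases hij : i = j
    · subst hij; simp
    · simp [Pi.single_eq_of_ne hij]
  have h0 : ∀ i : Fin d, |u i - u i| ≤ 1 ∧ 0 ≤ u i - u i := by
    intro i; simp
  rcases hu with hu | hu | hu <;> rcases hu' with hu' | hu' | hu'
  · exact key _ hu _ hu' h0 h0
  · exact key _ hu _ hu' h0 (hs _)
  · exact key _ hu _ hu' h0 (hs _)
  · exact key _ hu _ hu' (hs _) h0
  · exact key _ hu _ hu' (hs _) (hs _)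
  · exact key _ hu _ hu' (hs _) (hs _)
  · exact key _ hu _ hu' (hs _) h0
  · exact key _ hu _ hu' (hs _) (hs _)
  · exact key _ hu _ hu' (hs _) (hs _)

theorem measurable_restrict_sig (A : Set (Site d)) :
    Measurable[sig (nb i₁ i₂ A)] (fun (ω : Site d → UnitAddCircle) (v : A) =>
      fld i₁ i₂ a ω v) := by
  refine @measurable_pi_lambda _ _ _ (sig (nb i₁ i₂ A)) _ _ fun v => ?_
  refine measurable_fld_sig i₁ i₂ a (Or.inl v.2) (Or.inr (Or.inl ?_)) (Or.inr (Or.inr ?_))
  · rw [add_sub_cancel_right]; exact v.2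
  · rw [add_sub_cancel_right]; exact v.2

theorem law_indep (A B : Set (Site d)) (hAB : ∀ x ∈ A, ∀ y ∈ B, ∃ i, 2 ≤ |x i - y i|) :
    IndepFun (fun (x : Site d → Fin 16) (v : A) => x v)
      (fun (x : Site d → Fin 16) (v : B) => x v) (law i₁ i₂ a) := by
  have h1 : IndepFun (fun (ω : Site d → UnitAddCircle) (v : A) => fld i₁ i₂ a ω v)
      (fun (ω : Site d → UnitAddCircle) (v : B) => fld i₁ i₂ a ω v) (base d) := by
    have h2 := base_indep (d := d) (nb_disjoint i₁ i₂ hAB)
    exact indep_of_indep_of_le_left (indep_of_indep_of_le_right h2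
      (measurable_restrict_sig i₁ i₂ a B).comap_le) (measurable_restrict_sig i₁ i₂ a A).comap_le
  rw [indepFun_iff_measure_inter_preimage_eq_mul] at h1 ⊢
  intro s t hs ht
  have hA : Measurable (fun (x : Site d → Fin 16) (v : A) => x v) :=
    measurable_pi_lambda _ fun v => measurable_pi_apply _
  have hB : Measurable (fun (x : Site d → Fin 16) (v : B) => x v) :=
    measurable_pi_lambda _ fun v => measurable_pi_apply _
  rw [law, Measure.map_apply (measurable_fld i₁ i₂ a) ((hA hs).inter (hB ht)),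
    Measure.map_apply (measurable_fld i₁ i₂ a) (hA hs),
    Measure.map_apply (measurable_fld i₁ i₂ a) (hB ht)]
  exact h1 s t hs ht

/-- sum of the representatives around a face -/
noncomputable def fs (ω : Site d → UnitAddCircle) (v : Site d) : ℝ :=
  rep (hor i₁ ω v) + rep (ver i₁ i₂ a ω (v + Pi.single i₁ 1)) -
    rep (hor i₁ ω (v + Pi.single i₂ 1)) - rep (ver i₁ i₂ a ω v)

theorem fs_int (ω : Site d → UnitAddCircle) (v : Site d) :
    ∃ q : ℤ, fs i₁ i₂ a ω v = a + q := by
  have h : ((fs i₁ i₂ a ω v - a : ℝ) : UnitAddCircle) = 0 := by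
    rw [AddCircle.coe_sub, sub_eq_zero, ← flux i₁ i₂ a ω v, fs, AddCircle.coe_sub,
      AddCircle.coe_sub, AddCircle.coe_add, coe_rep, coe_rep, coe_rep, coe_rep]
  obtain ⟨q, hq⟩ := (AddCircle.coe_eq_zero_iff 1).mp h
  refine ⟨q, ?_⟩
  rw [zsmul_eq_mul, mul_one] at hq
  linarith

theorem fs_eq (ω : Site d → UnitAddCircle) (v v' : Site d)
    (h0 : fld i₁ i₂ a ω v = fld i₁ i₂ a ω v')
    (h1 : fld i₁ i₂ a ω (v + Pi.single i₁ 1) = fld i₁ i₂ a ω (v' + Pi.single i₁ 1))
    (h2 : fld i₁ i₂ a ω (v + Pi.single i₂ 1) = fld i₁ i₂ a ω (v' + Pi.single i₂ 1)) :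
    fs i₁ i₂ a ω v = fs i₁ i₂ a ω v' := by
  obtain ⟨q, hq⟩ := fs_int i₁ i₂ a ω v
  obtain ⟨q', hq'⟩ := fs_int i₁ i₂ a ω v'
  have e1 := abs_lt.mp (abs_rep_sub_lt (code_inj h0).1)
  have e2 := abs_lt.mp (abs_rep_sub_lt (code_inj h0).2)
  have e3 := abs_lt.mp (abs_rep_sub_lt (code_inj h1).2)
  have e4 := abs_lt.mp (abs_rep_sub_lt (code_inj h2).1)
  have h : |(q : ℝ) - q'| < 1 := by
    have : (q : ℝ) - q' = fs i₁ i₂ a ω v - fs i₁ i₂ a ω v' := by rw [hq, hq']; ring
    rw [this, fs, fs, abs_lt]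
    constructor <;> linarith [e1.1, e1.2, e2.1, e2.2, e3.1, e3.2, e4.1, e4.2]
  have h' : |q - q'| < 1 := by exact_mod_cast h
  have : q = q' := by
    have := Int.abs_lt_one_iff.mp h'
    omega
  rw [hq, hq', this]

/-- points of a coordinate plane -/
def pt (i j : ℕ) : Site d := Pi.single i₁ (i : ℤ) + Pi.single i₂ (j : ℤ)

theorem pt_succ_left (i j : ℕ) : pt (d := d) i₁ i₂ (i + 1) j = pt i₁ i₂ i j + Pi.single i₁ 1 := by
  rw [pt, pt, Nat.cast_succ, Pi.single_add]
  abel

theorem pt_succ_right (i j : ℕ) : pt (d := d) i₁ i₂ i (j + 1) = pt i₁ i₂ i j + Pi.single i₂ 1 := by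
  rw [pt, pt, Nat.cast_succ, Pi.single_add]
  abel

theorem sum_fs (ω : Site d → UnitAddCircle) (L : ℕ) :
    ∑ i ∈ Finset.range L, ∑ j ∈ Finset.range L, fs i₁ i₂ a ω (pt i₁ i₂ i j) =
      ∑ i ∈ Finset.range L, (rep (hor i₁ ω (pt i₁ i₂ i 0)) - rep (hor i₁ ω (pt i₁ i₂ i L))) +
      ∑ j ∈ Finset.range L, (rep (ver i₁ i₂ a ω (pt i₁ i₂ L j)) -
        rep (ver i₁ i₂ a ω (pt i₁ i₂ 0 j))) := by
  have h1 : ∀ i j, fs i₁ i₂ a ω (pt i₁ i₂ i j) =
      (rep (hor i₁ ω (pt i₁ i₂ i j)) - rep (hor i₁ ω (pt i₁ i₂ i (j + 1)))) +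
      (rep (ver i₁ i₂ a ω (pt i₁ i₂ (i + 1) j)) - rep (ver i₁ i₂ a ω (pt i₁ i₂ i j))) := by
    intro i j
    rw [fs, pt_succ_left, pt_succ_right]
    ring
  simp only [h1, Finset.sum_add_distrib]
  congr 1
  · refine Finset.sum_congr rfl fun i _ => ?_
    exact Finset.sum_range_sub' (fun j => rep (hor i₁ ω (pt i₁ i₂ i j))) L
  · rw [Finset.sum_comm]
    refine Finset.sum_congr rfl fun j _ => ?_
    exact Finset.sum_range_sub (fun i => rep (ver i₁ i₂ a ω (pt i₁ i₂ i j))) L

theorem sum_mod (N M : ℕ) (f : ℕ → ℝ) :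
    ∑ i ∈ Finset.range (M * N), f (i % N) = M * ∑ i ∈ Finset.range N, f i := by
  induction M with
  | zero => simp
  | succ M ih =>
    rw [Nat.succ_mul, Finset.sum_range_add, ih]
    have : ∑ i ∈ Finset.range N, f ((M * N + i) % N) = ∑ i ∈ Finset.range N, f i := by
      refine Finset.sum_congr rfl fun i hi => ?_
      rw [Nat.add_comm, Nat.add_mul_mod_self_right, Nat.mod_eq_of_lt (Finset.mem_range.mp hi)]
    rw [this]
    push_cast
    ring

theorem key_bound (ω : Site d → UnitAddCircle) (x : Site d → Fin 16) (N M : ℕ) (hN : 0 < N)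
    (hx : ∀ v u : Site d, x (u + N • v) = x u)
    (hω : ∀ i j : ℕ, i ≤ M * N → j ≤ M * N →
      fld i₁ i₂ a ω (pt i₁ i₂ i j) = x (pt i₁ i₂ i j)) :
    ∃ Q : ℤ, M * |(N : ℝ) ^ 2 * a + Q| ≤ N / 2 := by
  -- the field is periodic along the box
  have hper : ∀ i j : ℕ, pt (d := d) i₁ i₂ i j = pt i₁ i₂ (i % N) (j % N) +
      N • (pt i₁ i₂ (i / N) (j / N)) := by
    have hs : ∀ (c : Fin d) (i : ℕ), (Pi.single c (i : ℤ) : Site d) =
        Pi.single c ((i % N : ℕ) : ℤ) + N • Pi.single c ((i / N : ℕ) : ℤ) := by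
      intro c i
      have e1 : (i : ℤ) = ((i % N : ℕ) : ℤ) + N • ((i / N : ℕ) : ℤ) := by
        rw [nsmul_eq_mul]
        exact_mod_cast (Nat.mod_add_div i N).symm
      conv_lhs => rw [e1]
      rw [Pi.single_add, Pi.single_smul]
    intro i j
    rw [pt, hs i₁ i, hs i₂ j, pt, pt, smul_add]
    abel
  have hfs : ∀ i j : ℕ, i < M * N → j < M * N →
      fs i₁ i₂ a ω (pt i₁ i₂ i j) = fs i₁ i₂ a ω (pt i₁ i₂ (i % N) (j % N)) := by
    intro i j hi hj
    have hmi : i % N + 1 ≤ M * N := by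
      have := Nat.mod_le i N
      omega
    have hmj : j % N + 1 ≤ M * N := by
      have := Nat.mod_le j N
      omega
    apply fs_eq
    · rw [hω i j hi.le hj.le, hω (i % N) (j % N) (by omega) (by omega), hper i j, hx]
    · rw [← pt_succ_left, ← pt_succ_left, hω (i + 1) j (by omega) hj.le,
        hω (i % N + 1) (j % N) (by omega) (by omega), pt_succ_left, pt_succ_left, hper i j,
        add_right_comm, hx]
    · rw [← pt_succ_right, ← pt_succ_right, hω i (j + 1) hi.le (by omega),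
        hω (i % N) (j % N + 1) (by omega) (by omega), pt_succ_right, pt_succ_right, hper i j,
        add_right_comm, hx]
  choose q hq using fun v => fs_int i₁ i₂ a ω v
  refine ⟨∑ i ∈ Finset.range N, ∑ j ∈ Finset.range N, q (pt i₁ i₂ i j), ?_⟩
  have hS : ∑ i ∈ Finset.range (M * N), ∑ j ∈ Finset.range (M * N),
      fs i₁ i₂ a ω (pt i₁ i₂ i j) =
      (M : ℝ) ^ 2 * ((N : ℝ) ^ 2 * a +
        (∑ i ∈ Finset.range N, ∑ j ∈ Finset.range N, q (pt i₁ i₂ i j) : ℤ)) := by
    have e1 : ∑ i ∈ Finset.range (M * N), ∑ j ∈ Finset.range (M * N),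
        fs i₁ i₂ a ω (pt i₁ i₂ i j) =
        ∑ i ∈ Finset.range (M * N), ∑ j ∈ Finset.range (M * N),
          fs i₁ i₂ a ω (pt i₁ i₂ (i % N) (j % N)) :=
      Finset.sum_congr rfl fun i hi => Finset.sum_congr rfl fun j hj =>
        hfs i j (Finset.mem_range.mp hi) (Finset.mem_range.mp hj)
    have e2 : ∀ i, ∑ j ∈ Finset.range (M * N), fs i₁ i₂ a ω (pt i₁ i₂ i (j % N)) =
        M * ∑ j ∈ Finset.range N, fs i₁ i₂ a ω (pt i₁ i₂ i j) :=
      fun i => sum_mod N M fun j => fs i₁ i₂ a ω (pt i₁ i₂ i j)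
    rw [e1]
    simp only [e2]
    rw [← Finset.mul_sum, sum_mod N M fun i => ∑ j ∈ Finset.range N,
      fs i₁ i₂ a ω (pt i₁ i₂ i j)]
    simp only [hq, Finset.sum_add_distrib, Finset.sum_const, Finset.card_range, nsmul_eq_mul]
    push_cast
    ring
  have hfx : ∀ i : ℕ, fld i₁ i₂ a ω (pt i₁ i₂ i 0) = fld i₁ i₂ a ω (pt i₁ i₂ i (M * N)) ∨
      ¬ i ≤ M * N := by
    intro i
    by_cases hi : i ≤ M * N
    · left
      rw [hω i 0 hi (Nat.zero_le _), hω i (M * N) hi le_rfl, hper i (M * N), hper i 0]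
      rw [hx, hx]
      simp
    · right; exact hi
  have hfy : ∀ j : ℕ, fld i₁ i₂ a ω (pt i₁ i₂ (M * N) j) = fld i₁ i₂ a ω (pt i₁ i₂ 0 j) ∨
      ¬ j ≤ M * N := by
    intro j
    by_cases hj : j ≤ M * N
    · left
      rw [hω 0 j (Nat.zero_le _) hj, hω (M * N) j le_rfl hj, hper (M * N) j, hper 0 j]
      rw [hx, hx]
      simp
    · right; exact hj
  have hB : |∑ i ∈ Finset.range (M * N), ∑ j ∈ Finset.range (M * N),
      fs i₁ i₂ a ω (pt i₁ i₂ i j)| ≤ M * N / 2 := by
    rw [sum_fs]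
    refine (abs_add_le _ _).trans ?_
    have b1 : |∑ i ∈ Finset.range (M * N), (rep (hor i₁ ω (pt i₁ i₂ i 0)) -
        rep (hor i₁ ω (pt i₁ i₂ i (M * N))))| ≤ ∑ i ∈ Finset.range (M * N), (1 / 4 : ℝ) := by
      refine (Finset.abs_sum_le_sum_abs _ _).trans (Finset.sum_le_sum fun i hi => ?_)
      have hi' := Finset.mem_range.mp hi
      rcases hfx i with h | h
      · exact (abs_rep_sub_lt (code_inj h).1).le
      · exact absurd hi'.le h
    have b2 : |∑ j ∈ Finset.range (M * N), (rep (ver i₁ i₂ a ω (pt i₁ i₂ (M * N) j)) -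
        rep (ver i₁ i₂ a ω (pt i₁ i₂ 0 j)))| ≤ ∑ j ∈ Finset.range (M * N), (1 / 4 : ℝ) := by
      refine (Finset.abs_sum_le_sum_abs _ _).trans (Finset.sum_le_sum fun j hj => ?_)
      have hj' := Finset.mem_range.mp hj
      rcases hfy j with h | h
      · exact (abs_rep_sub_lt (code_inj h).2).le
      · exact absurd hj'.le h
    rw [Finset.sum_const, Finset.card_range, nsmul_eq_mul] at b1 b2
    push_cast at b1 b2
    linarith
  rw [hS, abs_mul, abs_of_nonneg (by positivity : (0 : ℝ) ≤ (M : ℝ) ^ 2)] at hB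
  rcases Nat.eq_zero_or_pos M with h0 | h0
  · subst h0
    simp
    positivity
  · have hM : (0 : ℝ) < M := by exact_mod_cast h0
    have : (M : ℝ) * (M * |(N : ℝ) ^ 2 * a +
        (∑ i ∈ Finset.range N, ∑ j ∈ Finset.range N, q (pt i₁ i₂ i j) : ℤ)|) ≤ M * (N / 2) := by
      calc _ = (M : ℝ) ^ 2 * |(N : ℝ) ^ 2 * a +
            (∑ i ∈ Finset.range N, ∑ j ∈ Finset.range N, q (pt i₁ i₂ i j) : ℤ)| := by ring
        _ ≤ M * N / 2 := hB
        _ = M * (N / 2) := by ring
    exact le_of_mul_le_mul_left this hM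

theorem no_periodic (ha : Irrational a) (x : Site d → Fin 16)
    (hx : ∀ B : Finset (Site d), 0 < law i₁ i₂ a {y | ∀ v ∈ B, y v = x v}) :
    ¬ ∃ H : AddSubgroup (Site d), H.FiniteIndex ∧ ∀ v ∈ H, ∀ u, x (u + v) = x u := by
  rintro ⟨H, hH, hxH⟩
  obtain ⟨N, hN, hNH⟩ : ∃ N : ℕ, 0 < N ∧ ∀ v : Site d, N • v ∈ H :=
    ⟨H.index, Nat.pos_of_ne_zero hH.index_ne_zero, fun v => AddSubgroup.nsmul_index_mem H v⟩
  set δ : ℝ := |(N : ℝ) ^ 2 * a - round ((N : ℝ) ^ 2 * a)| with hδ
  have hNa : Irrational ((N : ℝ) ^ 2 * a) := by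
    have := ha.natCast_mul (m := N ^ 2) (by positivity)
    push_cast at this
    exact this
  have hδ0 : 0 < δ := by
    rw [hδ, abs_pos, sub_ne_zero]
    exact hNa.ne_int _
  have hδQ : ∀ Q : ℤ, δ ≤ |(N : ℝ) ^ 2 * a + Q| := by
    intro Q
    have := round_le ((N : ℝ) ^ 2 * a) (-Q)
    push_cast at this
    rwa [sub_neg_eq_add] at this
  obtain ⟨M, hM⟩ := exists_nat_gt ((N : ℝ) / 2 / δ)
  let B : Finset (Site d) := (Finset.range (M * N + 1) ×ˢ Finset.range (M * N + 1)).image
    fun p => pt i₁ i₂ p.1 p.2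
  have hmeas : MeasurableSet {y : Site d → Fin 16 | ∀ v ∈ B, y v = x v} := by
    have : {y : Site d → Fin 16 | ∀ v ∈ B, y v = x v} =
        ⋂ v ∈ B, (fun y : Site d → Fin 16 => y v) ⁻¹' {x v} := by
      ext y; simp
    rw [this]
    exact Finset.measurableSet_biInter _ fun v _ =>
      measurable_pi_apply v (measurableSet_singleton _)
  have hpos := hx B
  rw [law, Measure.map_apply (measurable_fld i₁ i₂ a) hmeas] at hpos
  obtain ⟨ω, hω⟩ := nonempty_of_measure_ne_zero hpos.ne'
  obtain ⟨Q, hQ⟩ := key_bound i₁ i₂ a ω x N M hN (fun v u => hxH _ (hNH v) u) (by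
    intro i j hi hj
    refine hω _ (Finset.mem_image.mpr ⟨(i, j), ?_, rfl⟩)
    simp only [Finset.mem_product, Finset.mem_range]
    omega)
  have h1 := hδQ Q
  have h2 : (N : ℝ) / 2 < M * δ := by
    rwa [div_lt_iff₀ hδ0] at hM
  have h3 : (M : ℝ) * δ ≤ M * |(N : ℝ) ^ 2 * a + Q| :=
    mul_le_mul_of_nonneg_left h1 (Nat.cast_nonneg M)
  linarith

end field

/-- For every `d ≥ 2` there is a shift-invariant finitely dependent process on `ℤ^d` with values
in a set of 16 elements whose support (the set of configurations all of whose finite patterns have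
positive probability) contains no periodic point. -/
theorem result (d : ℕ) (hd : 2 ≤ d) :
    ∃ μ : Measure ((Fin d → ℤ) → Fin 16),
      IsProbabilityMeasure μ ∧
      (∀ v : Fin d → ℤ, μ.map (fun x u => x (u + v)) = μ) ∧
      (∀ A B : Set (Fin d → ℤ), (∀ a ∈ A, ∀ b ∈ B, ∃ i, 2 ≤ |a i - b i|) →
        IndepFun (fun (x : (Fin d → ℤ) → Fin 16) (a : A) => x a)
          (fun (x : (Fin d → ℤ) → Fin 16) (b : B) => x b) μ) ∧
      (∃ x : (Fin d → ℤ) → Fin 16,
        ∀ B : Finset (Fin d → ℤ), 0 < μ {y | ∀ v ∈ B, y v = x v}) ∧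
      ∀ x : (Fin d → ℤ) → Fin 16,
        (∀ B : Finset (Fin d → ℤ), 0 < μ {y | ∀ v ∈ B, y v = x v}) →
        ¬ ∃ H : AddSubgroup (Fin d → ℤ), H.FiniteIndex ∧ ∀ v ∈ H, ∀ u, x (u + v) = x u := by
  obtain ⟨i₁, i₂, h12⟩ : ∃ i₁ i₂ : Fin d, i₁ ≠ i₂ :=
    ⟨⟨0, by omega⟩, ⟨1, by omega⟩, by simp⟩
  have hp : IsProbabilityMeasure (law i₁ i₂ (Real.sqrt 2)) := law_prob _ _ _
  refine ⟨law i₁ i₂ (Real.sqrt 2), hp,
    fun v => law_shift _ _ _ h12 v, fun A B h => law_indep _ _ _ A B h, ?_,
    fun x hx => no_periodic _ _ _ irrational_sqrt_two x hx⟩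
  obtain ⟨x, hx⟩ := Measure.nonempty_support (IsProbabilityMeasure.ne_zero
    (law i₁ i₂ (Real.sqrt 2)))
  refine ⟨x, fun B => ?_⟩
  rw [Measure.mem_support_iff_forall] at hx
  refine hx _ (IsOpen.mem_nhds ?_ (fun v _ => rfl))
  have : {y : Site d → Fin 16 | ∀ v ∈ B, y v = x v} =
      ⋂ v ∈ B, (fun y : Site d → Fin 16 => y v) ⁻¹' {x v} := by
    ext y; simp
  rw [this]
  exact isOpen_biInter_finset fun v _ => (isOpen_discrete {x v}).preimage (continuous_apply v)

end Pool.Agent.Results.MP_5c5aaa_pr.NoPeriodicPoint
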